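import Pool.Agent.H73.TP.Two
import Pool.Agent.H53.ATP.Fek

/-!
# From solid minors of consecutive rows to all minors of the `r`-th order Eulerian triangle
-/

set_option autoImplicit false

open Polynomial Pool.Agent.H73.TP

namespace Pool.Agent.H73.O4

/-- Solid minors of order three of the rows are positive. -/
def ThreeSt : Prop := ∀ r : ℕ, 1 ≤ r → ∀ n k : ℕ, k ≤ n →
  0 < Matrix.det (Matrix.of fun i j : Fin 3 => (rowP r (n + i)).coeff (k + j))

/-- Solid minors of order four of the rows are positive. -/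
def FourSt : Prop := ∀ r : ℕ, 1 ≤ r → ∀ n k : ℕ, k ≤ n →
  0 < Matrix.det (Matrix.of fun i j : Fin 4 => (rowP r (n + i)).coeff (k + j))

theorem coeff_rowP (r : ℕ) (E : ℕ → ℕ → ℤ) (h00 : E 0 0 = 1) (h0 : ∀ k, E 0 (k + 1) = 0)
    (hc : ∀ n, E (n + 1) 0 = E n 0)
    (hs : ∀ n k : ℕ, E (n + 1) (k + 1) =
      ((k : ℤ) + 2) * E n (k + 1) + ((r : ℤ) * (n : ℤ) - (k : ℤ)) * E n k) :
    ∀ n k, ((E (n + 1) k : ℤ) : ℝ) = (rowP r n).coeff k := by
  intro n
  induction n with
  | zero =>
    intro k
    rcases k with _ | k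
    · rw [hc, h00]; simp [rowP]
    · rw [hs, h0]
      rcases k with _ | k
      · simp [rowP, coeff_one]
      · rw [h0]; simp [rowP, coeff_one]
  | succ n ih =>
    intro k
    rcases k with _ | k
    · rw [hc, ih, rowP, opA_coeff_zero]
    · rw [hs, rowP, opA_coeff_succ, ← ih, ← ih]
      push_cast; ring

/-- **Glue.** If the solid minors of order `≤ K` of the rows `rowP r n` are positive, then all
minors of order `≤ K` of the triangle are nonnegative, and positive if the diagonal entries of the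
minor are inside the triangle. -/
theorem glue (K r : ℕ) (hr : 1 ≤ r)
    (hsol : ∀ m, m ≤ K → ∀ n k, k ≤ n →
      0 < Matrix.det (Matrix.of fun i j : Fin m => (rowP r (n + i)).coeff (k + j)))
    (E : ℕ → ℕ → ℤ) (h00 : E 0 0 = 1) (h0 : ∀ k, E 0 (k + 1) = 0)
    (hc : ∀ n, E (n + 1) 0 = E n 0)
    (hs : ∀ n k : ℕ, E (n + 1) (k + 1) =
      ((k : ℤ) + 2) * E n (k + 1) + ((r : ℤ) * (n : ℤ) - (k : ℤ)) * E n k)
    (m : ℕ) (hm : m ≤ K) (f g : Fin m → ℕ) (hf : StrictMono f) (hg : StrictMono g) :
    0 ≤ Matrix.det (Matrix.of fun i j => E (f i) (g j)) ∧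
      ((∀ i, g i < f i) → 0 < Matrix.det (Matrix.of fun i j => E (f i) (g j))) := by
  have hE := coeff_rowP r E h00 h0 hc hs
  set a : ℕ → ℕ → ℝ := fun n k => (rowP r n).coeff k with ha
  have hEa : ∀ n k, ((E n k : ℤ) : ℝ) = a (n - 1) k := by
    intro n k
    rcases n with _ | n
    · rcases k with _ | k
      · have : a 0 0 = 1 := by simp [ha, rowP]
        rw [h00, this]; simp
      · have : a 0 (k + 1) = 0 := by simp [ha, rowP, coeff_one]
        rw [h0, this]; simp
    · rw [hE]; simp [ha]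
  have hdet : ((Matrix.det (Matrix.of fun i j => E (f i) (g j)) : ℤ) : ℝ)
      = Matrix.det (Matrix.of fun i j => a (f i - 1) (g j)) := by
    have h : ((Matrix.det (Matrix.of fun i j => E (f i) (g j)) : ℤ) : ℝ)
        = ((Int.castRingHom ℝ).mapMatrix (Matrix.of fun i j => E (f i) (g j))).det :=
      RingHom.map_det (Int.castRingHom ℝ) (Matrix.of fun i j => E (f i) (g j))
    rw [h]
    congr 1
    ext i j
    simp only [RingHom.mapMatrix_apply, Matrix.map_apply, Matrix.of_apply, Int.coe_castRingHom]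
    exact hEa _ _
  by_cases hmono : StrictMono (fun i => f i - 1)
  · obtain ⟨h1, h2⟩ := Pool.Agent.H53.ATP.fek a K 0
      (fun n k hk => rowP_zero r hr n k hk)
      (fun m hm n _ k hk => hsol m hm n k hk) m hm (fun i => f i - 1) g hmono hg
      (fun i => Nat.zero_le _)
    refine ⟨?_, fun hpos => ?_⟩
    · rw [← hdet] at h1
      exact_mod_cast h1
    · have h3 := h2 (fun i => by have := hpos i; show g i ≤ f i - 1; omega)
      rw [← hdet] at h3
      exact_mod_cast h3
  · have hex : ∃ i j : Fin m, i < j ∧ f j - 1 ≤ f i - 1 := by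
      by_contra hcon
      push Not at hcon
      exact hmono fun i j hij => hcon i j hij
    obtain ⟨i, j, hij, hle⟩ := hex
    have hlt := hf hij
    have hz : Matrix.det (Matrix.of fun i j => a (f i - 1) (g j)) = 0 := by
      apply Matrix.det_zero_of_row_eq (ne_of_lt hij)
      have : f i - 1 = f j - 1 := by omega
      ext l
      simp only [Matrix.of_apply]
      rw [this]
    rw [← hdet] at hz
    have hz' : Matrix.det (Matrix.of fun i j => E (f i) (g j)) = 0 := by exact_mod_cast hz
    refine ⟨hz'.ge, fun hpos => ?_⟩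
    have := hpos i
    omega

/-- **All minors of order at most four**, from the solid ones. -/
theorem fin (h3 : ThreeSt) (h4 : FourSt) :
    ∀ r : ℕ, 1 ≤ r →
      ∀ E : ℕ → ℕ → ℤ,
        E 0 0 = 1 →
        (∀ k : ℕ, E 0 (k + 1) = 0) →
        (∀ n : ℕ, E (n + 1) 0 = E n 0) →
        (∀ n k : ℕ, E (n + 1) (k + 1) =
            ((k : ℤ) + 2) * E n (k + 1) + ((r : ℤ) * (n : ℤ) - (k : ℤ)) * E n k) →
        ∀ m : ℕ, m ≤ 4 → ∀ f g : Fin m → ℕ, StrictMono f → StrictMono g →
          0 ≤ Matrix.det (Matrix.of fun i j => E (f i) (g j)) ∧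
          ((∀ i, g i < f i) → 0 < Matrix.det (Matrix.of fun i j => E (f i) (g j))) := by
  intro r hr E h00 h0 hc hs m hm f g hf hg
  refine glue 4 r hr ?_ E h00 h0 hc hs m hm f g hf hg
  intro m hm n k hk
  interval_cases m
  · simp
  · rw [Matrix.det_fin_one]
    simp only [Matrix.of_apply]
    have := rowP_pos r hr n k hk
    simpa using this
  · rw [Matrix.det_fin_two]
    simp only [Matrix.of_apply]
    have := rowP_two r hr n k hk
    simpa [w2] using this
  · exact h3 r hr n k hk
  · exact h4 r hr n k hk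

end Pool.Agent.H73.O4
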